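import Pool.Agent.Helper34.PU.Goals

set_option autoImplicit false

open Finset Function
open scoped Classical

namespace Pool.Agent.Helper69.PU

open Pool.Agent.Helper34.PU

theorem cover (h1 : RCovStmt) (h2 : IntStmt) : CoverStmt := by
  intro Δ hΔ ε hε
  have hΔr : (3 : ℝ) ≤ Δ := by exact_mod_cast hΔ
  have hΔ0 : (0 : ℝ) < Δ := by linarith
  set δ : ℝ := min (1 / 2) (ε * Δ / 8) with hδ
  have hδ0 : 0 < δ := lt_min (by norm_num) (by positivity)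
  have hδ1 : δ ≤ 1 / 2 := min_le_left _ _
  have hδ2 : δ ≤ ε * Δ / 8 := min_le_right _ _
  set θ : ℝ := (1 - δ) / ((Δ : ℝ) - 1) with hθ
  have hD1 : (0 : ℝ) < (Δ : ℝ) - 1 := by linarith
  have hθ0 : 0 < θ := div_pos (by linarith) hD1
  have hθm : ((Δ : ℝ) - 1) * θ = 1 - δ := by rw [hθ]; field_simp
  have hθ1 : ((Δ : ℝ) - 1) * θ < 1 := by rw [hθm]; linarith
  have hθlt : θ < 1 := by nlinarith
  set σ : ℝ := 2 * θ / (1 + θ) with hσ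
  have hσ0 : 0 < σ := by positivity
  have hσ1 : σ < 1 := by rw [hσ, div_lt_one (by linarith)]; linarith
  have hσlo : 2 / (Δ : ℝ) - ε / 4 ≤ σ := by
    have h3 : σ = 2 * (1 - δ) / ((Δ : ℝ) - δ) := by
      have h4 : (Δ : ℝ) - δ = ((Δ : ℝ) - 1) * (1 + θ) := by linarith
      rw [hσ, h4, ← hθm]
      field_simp
    have h5 : 2 * (1 - δ) / (Δ : ℝ) ≤ σ := by
      rw [h3]
      apply div_le_div_of_nonneg_left (by linarith) (by linarith) (by linarith)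
    have h6 : 2 * (1 - δ) / (Δ : ℝ) = 2 / Δ - 2 * δ / Δ := by ring
    have h7 : 2 * δ / (Δ : ℝ) ≤ ε / 4 := by
      rw [div_le_iff₀ hΔ0]; linarith
    linarith
  set η : ℝ := ε / (4 * Δ) with hη
  have hη0 : 0 < η := by positivity
  have hηΔ : (Δ : ℝ) * η = ε / 4 := by rw [hη]; field_simp
  obtain ⟨K, hK⟩ := h1 Δ θ hΔ hθ0 hθ1 η hη0
  set C : ℕ := 2 ^ ((Δ + 1) ^ K) with hC
  set Mw : ℕ := ⌈2 * ((Δ : ℝ) * (C + 1) + 2) / ε⌉₊ + ⌈1 / σ⌉₊ + 1 with hMw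
  have hM1 : 1 ≤ Mw := by rw [hMw]; omega
  have hMa : 2 * ((Δ : ℝ) * (C + 1) + 2) / ε ≤ Mw := by
    have := Nat.le_ceil (2 * ((Δ : ℝ) * (C + 1) + 2) / ε)
    have h9 : ((⌈2 * ((Δ : ℝ) * (C + 1) + 2) / ε⌉₊ : ℕ) : ℝ) ≤ Mw := by
      rw [hMw]; push_cast; have : (0 : ℝ) ≤ (⌈1 / σ⌉₊ : ℝ) := Nat.cast_nonneg _; linarith
    linarith
  have hMb : 1 / σ ≤ Mw := by
    have := Nat.le_ceil (1 / σ)
    have h9 : ((⌈1 / σ⌉₊ : ℕ) : ℝ) ≤ Mw := by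
      rw [hMw]; push_cast
      have : (0 : ℝ) ≤ (⌈2 * ((Δ : ℝ) * (C + 1) + 2) / ε⌉₊ : ℝ) := Nat.cast_nonneg _
      linarith
    linarith
  have hMr : (1 : ℝ) ≤ Mw := by exact_mod_cast hM1
  have hM0 : (0 : ℝ) < Mw := by linarith
  have hMσ : 1 ≤ Mw * σ := by
    rw [div_le_iff₀ hσ0] at hMb; exact hMb
  have hs0 : 0 < ⌊(Mw : ℝ) * σ⌋₊ := Nat.floor_pos.2 hMσ
  have hsM : ⌊(Mw : ℝ) * σ⌋₊ ≤ Mw := by
    apply Nat.floor_le_of_le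
    nlinarith
  refine ⟨Mw + Δ * (⌊(Mw : ℝ) * η⌋₊ + C + 1) + 1, ⌊(Mw : ℝ) * σ⌋₊, max K 2, hs0, ?_,
    lt_of_lt_of_le (by norm_num) (le_max_right K 2), ?_, ?_⟩
  · omega
  · by_cases hρ : 2 / (Δ : ℝ) - ε ≤ 0
    · refine le_trans ?_ (Nat.cast_nonneg _)
      exact mul_nonpos_of_nonpos_of_nonneg hρ (Nat.cast_nonneg _)
    · push Not at hρ
      have hρ1 : 2 / (Δ : ℝ) - ε ≤ 1 := by
        have : 2 / (Δ : ℝ) ≤ 1 := by rw [div_le_one hΔ0]; linarith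
        linarith
      have hfl : ((⌊(Mw : ℝ) * η⌋₊ : ℕ) : ℝ) ≤ Mw * η := Nat.floor_le (by positivity)
      have hs : (Mw : ℝ) * σ - 1 ≤ ((⌊(Mw : ℝ) * σ⌋₊ : ℕ) : ℝ) := by
        have := Nat.lt_floor_add_one ((Mw : ℝ) * σ)
        linarith
      have hbig : (Δ : ℝ) * (C + 1) + 2 ≤ Mw * (ε / 2) := by
        rw [div_le_iff₀ hε] at hMa
        linarith
      have hC0 : (0 : ℝ) ≤ (C : ℝ) := Nat.cast_nonneg _
      push_cast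
      set ρ : ℝ := 2 / (Δ : ℝ) - ε with hρd
      have e1 : ρ * ((Mw : ℝ) + Δ * (((⌊(Mw : ℝ) * η⌋₊ : ℕ) : ℝ) + C + 1) + 1) ≤
          ρ * ((Mw : ℝ) + (Mw * (ε / 4) + Δ * (C + 1)) + 1) := by
        apply mul_le_mul_of_nonneg_left _ hρ.le
        have : (Δ : ℝ) * (((⌊(Mw : ℝ) * η⌋₊ : ℕ) : ℝ) + C + 1) ≤ Mw * (ε / 4) + Δ * (C + 1) := by
          calc (Δ : ℝ) * (((⌊(Mw : ℝ) * η⌋₊ : ℕ) : ℝ) + C + 1)
              = Δ * ((⌊(Mw : ℝ) * η⌋₊ : ℕ) : ℝ) + Δ * (C + 1) := by ring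
            _ ≤ Δ * (Mw * η) + Δ * (C + 1) := by gcongr
            _ = Mw * (Δ * η) + Δ * (C + 1) := by ring
            _ = _ := by rw [hηΔ]
        linarith
      have e2 : ρ * ((Mw : ℝ) + (Mw * (ε / 4) + Δ * (C + 1)) + 1) ≤
          ρ * Mw + (Mw * (ε / 4) + Δ * (C + 1) + 1) := by
        have hnn : 0 ≤ Mw * (ε / 4) + (Δ : ℝ) * (C + 1) + 1 := by positivity
        nlinarith
      have e3 : (Mw : ℝ) * (2 / (Δ : ℝ) - ε / 4) ≤ Mw * σ := by gcongr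
      have e4 : ρ * (Mw : ℝ) = Mw * (2 / (Δ : ℝ) - ε / 4) - Mw * (3 * ε / 4) := by
        rw [hρd]; ring
      linarith
  · intro n H hH
    exact h2 Δ K Mw σ η hσ0 hσ1 hη0.le hM1 (Fin n) H hH (hK (Fin n) H hH)

end Pool.Agent.Helper69.PU
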